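import Pool.Agent.MP_6a4325_al.H84.Spec3

/-! A subgroup of infinite index in a polycyclic-by-finite group lies below a gap prime to `p`. -/

set_option autoImplicit false

namespace Pool.Agent.MP_6a4325_al.H54

open Pool.Agent.MP_6a4325_al.H62 Pool.Agent.MP_6a4325_al.H84

namespace Gap

variable {L : Type} [Group L]

theorem relIndex_sup (Y A : Subgroup L) [A.Normal] : Y.relIndex (Y ⊔ A) = Y.relIndex A := by
  refine (Nat.card_congr (Equiv.ofBijective
    (Subgroup.quotientSubgroupOfEmbeddingOfLE Y (le_sup_right : A ≤ Y ⊔ A))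
    ⟨Function.Embedding.injective _, ?_⟩)).symm
  rintro ⟨g, hg⟩
  have h1 : g ∈ ((A ⊔ Y : Subgroup L) : Set L) := by rwa [sup_comm]
  rw [Subgroup.normal_mul] at h1
  obtain ⟨a, ha, y, hy, rfl⟩ := h1
  refine ⟨QuotientGroup.mk ⟨a, ha⟩, ?_⟩
  rw [Subgroup.quotientSubgroupOfEmbeddingOfLE_apply_mk]
  exact QuotientGroup.eq.2 (by simpa [Subgroup.mem_subgroupOf] using hy)

theorem pow_index (Q : Type) [CommGroup Q] [Group.FG Q] [Infinite Q] (r : ℕ) [hr : Fact r.Prime] :
    ∃ n, (powMonoidHom r : Q →* Q).range.index = r ^ (n + 1) := by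
  have h1 : IsPGroup r (Q ⧸ (powMonoidHom r : Q →* Q).range) := fun x => ⟨1, by
    obtain ⟨x, rfl⟩ := QuotientGroup.mk_surjective x
    rw [pow_one, ← QuotientGroup.mk_pow, QuotientGroup.eq_one_iff]
    exact ⟨x, rfl⟩⟩
  have h2 : Finite (Q ⧸ (powMonoidHom r : Q →* Q).range) :=
    CommGroup.finite_of_fg_isMulTorsion _ fun x => by
      obtain ⟨k, hk⟩ := h1 x
      exact isOfFinOrder_iff_pow_eq_one.2 ⟨_, pow_pos hr.out.pos k, hk⟩
  obtain ⟨n, hn⟩ := IsPGroup.iff_card.1 h1
  rcases n with _ | n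
  · exfalso
    have h3 : (powMonoidHom r : Q →* Q).range = ⊤ := Subgroup.index_eq_one.1 hn
    have h4 : Module.Finite ℤ (Additive Q) := Module.Finite.iff_addGroup_fg.2 inferInstance
    obtain ⟨s, h5, h6⟩ := Submodule.exists_sub_one_mem_and_smul_eq_zero_of_fg_of_le_smul
      (Ideal.span {(r : ℤ)}) (⊤ : Submodule ℤ (Additive Q)) Module.Finite.fg_top fun x _ => by
        obtain ⟨y, hy⟩ : x.toMul ∈ (powMonoidHom r : Q →* Q).range := h3 ▸ Subgroup.mem_top _
        have : x = (r : ℤ) • Additive.ofMul y := by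
          rw [natCast_zsmul, ← ofMul_pow]
          exact (congrArg Additive.ofMul hy).symm
        exact this ▸ Submodule.smul_mem_smul (Ideal.mem_span_singleton_self _) trivial
    have h7 : s ≠ 0 := by
      rintro rfl
      rw [zero_sub, Ideal.mem_span_singleton, dvd_neg] at h5
      exact hr.out.ne_one (Nat.dvd_one.1 (by exact_mod_cast h5))
    have h8 : Finite Q := CommGroup.finite_of_fg_isMulTorsion _ fun x =>
      isOfFinOrder_iff_zpow_eq_one.2
        ⟨s, h7, congrArg Additive.toMul (h6 (Additive.ofMul x) trivial)⟩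
    exact not_finite Q
  · exact ⟨n, hn⟩

theorem key (H A : Subgroup L) [hA : A.Normal] (hfg : A.FG) (hc : ⁅A, A⁆ ≤ H)
    (h0 : H.relIndex (H ⊔ A) = 0) (r : ℕ) [Fact r.Prime] :
    ∃ (Y : Subgroup L) (n : ℕ), H ≤ Y ∧ Y ≤ H ⊔ A ∧ Y.relIndex (H ⊔ A) = r ^ (n + 1) := by
  have hK : commutator A ≤ H.subgroupOf A := by
    rw [← Subgroup.map_subtype_le_map_subtype, Subgroup.map_subtype_commutator,
      Subgroup.subgroupOf_map_subtype]
    exact le_inf hc (Subgroup.commutator_le_left _ _)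
  have hN : (H.subgroupOf A).Normal := Subgroup.Normal.of_commutator_le _ hK
  let _ : CommGroup (A ⧸ H.subgroupOf A) :=
    { mul_comm := (Subgroup.Normal.quotient_commutative_iff_commutator_le.2 hK).is_comm.comm }
  have h1 : Group.FG A := (Group.fg_iff_subgroup_fg A).2 hfg
  have h2 : Infinite (A ⧸ H.subgroupOf A) :=
    Subgroup.index_eq_zero_iff_infinite.1 (by rwa [relIndex_sup] at h0)
  obtain ⟨n, hn⟩ := pow_index (A ⧸ H.subgroupOf A) r
  let Y : Subgroup L :=
    { carrier := {g | ∃ b ∈ A, (b ^ r)⁻¹ * g ∈ H}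
      one_mem' := ⟨1, A.one_mem, by simp⟩
      mul_mem' := by
        rintro g g' ⟨b, hb, h⟩ ⟨b', hb', h'⟩
        obtain ⟨x, rfl⟩ : ∃ x, g = b ^ r * x := ⟨(b ^ r)⁻¹ * g, by group⟩
        rw [inv_mul_cancel_left] at h
        have hc := hA.conj_mem b' hb' x
        have h3 : (((⟨b, hb⟩ * ⟨_, hc⟩ : A)) ^ r)⁻¹ * (⟨b, hb⟩ ^ r * ⟨_, hc⟩ ^ r) ∈
            H.subgroupOf A := by
          rw [← QuotientGroup.eq, QuotientGroup.mk_pow, QuotientGroup.mk_mul, mul_pow]
          rfl
        refine ⟨_, A.mul_mem hb hc, ?_⟩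
        have h4 := H.mul_mem (Subgroup.mem_subgroupOf.1 h3) (H.mul_mem h h')
        simp only [Subgroup.coe_mul, Subgroup.coe_inv, Subgroup.coe_pow, conj_pow] at h4
        convert h4 using 1
        group
      inv_mem' := by
        rintro g ⟨b, hb, h⟩
        obtain ⟨x, rfl⟩ : ∃ x, g = b ^ r * x := ⟨(b ^ r)⁻¹ * g, by group⟩
        rw [inv_mul_cancel_left] at h
        refine ⟨_, hA.conj_mem _ (A.inv_mem hb) x⁻¹, ?_⟩
        rw [conj_pow]
        convert H.inv_mem h using 1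
        group }
  have h5 : H ≤ Y := fun g hg => ⟨1, A.one_mem, by simpa using hg⟩
  have h6 : Y ≤ H ⊔ A := by
    rintro g ⟨b, hb, h⟩
    simpa using (H ⊔ A).mul_mem (Subgroup.mem_sup_right (A.pow_mem hb r))
      (Subgroup.mem_sup_left h)
  refine ⟨Y, n, h5, h6, ?_⟩
  have h7 : Y.subgroupOf A = (powMonoidHom r).range.comap (QuotientGroup.mk' (H.subgroupOf A)) := by
    ext a
    constructor
    · rintro ⟨b, hb, h⟩
      exact ⟨QuotientGroup.mk ⟨b, hb⟩, QuotientGroup.eq.2 h⟩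
    · rintro ⟨b, h⟩
      obtain ⟨b, rfl⟩ := QuotientGroup.mk_surjective b
      exact ⟨b, b.2, (QuotientGroup.eq (s := H.subgroupOf A) (a := b ^ r) (b := a)).1 h⟩
  rw [show H ⊔ A = Y ⊔ A from le_antisymm (sup_le_sup_right h5 _) (sup_le h6 le_sup_right),
    relIndex_sup, Subgroup.relIndex, h7,
    Subgroup.index_comap_of_surjective _ (QuotientGroup.mk'_surjective _), hn]

/-- The derived series of a subgroup. -/
def D (N : Subgroup L) : ℕ → Subgroup L
  | 0 => N
  | j + 1 => ⁅D N j, D N j⁆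

instance D_normal (N : Subgroup L) [h : N.Normal] : ∀ j, (D N j).Normal
  | 0 => h
  | j + 1 => haveI := D_normal N j; Subgroup.commutator_normal _ _

theorem D_succ (N : Subgroup L) [N.Normal] (j : ℕ) : D N (j + 1) ≤ D N j :=
  Subgroup.commutator_le_left _ _

theorem D_le {N N' : Subgroup L} (h : N ≤ N') (j : ℕ) :
    D N j ≤ (derivedSeries N' j).map N'.subtype := by
  induction j with
  | zero => simpa [D, ← MonoidHom.range_eq_map] using h
  | succ j ih =>
    rw [derivedSeries_succ, Subgroup.map_commutator]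
    exact Subgroup.commutator_mono ih ih

end Gap

open Gap in
theorem gap : SGap := by
  intro p hp L _ H ⟨hfg, N, hN, l, hl⟩ h0
  obtain ⟨j, hj⟩ : ∃ j, (H ⊔ D N.normalCore (j + 1)).relIndex (H ⊔ D N.normalCore j) = 0 := by
    by_contra hc
    have h1 : ∀ j, (H ⊔ D N.normalCore j).index ≠ 0 := by
      intro j
      induction j with
      | zero => exact (Subgroup.finiteIndex_of_le (H := N.normalCore) le_sup_right).index_ne_zero
      | succ j ih =>
        rw [← Subgroup.relIndex_mul_index (sup_le_sup_left (D_succ _ j) H)]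
        exact mul_ne_zero (fun e => hc ⟨j, e⟩) ih
    have h2 := D_le N.normalCore_le l
    rw [hl, Subgroup.map_bot, le_bot_iff] at h2
    exact h1 l (by rwa [h2, sup_bot_eq])
  obtain ⟨r, hr, hr'⟩ := Nat.exists_infinite_primes (p + 1)
  have : Fact r.Prime := ⟨hr'⟩
  have h3 : H ⊔ D N.normalCore (j + 1) ⊔ D N.normalCore j = H ⊔ D N.normalCore j := by
    rw [sup_assoc, sup_eq_right.2 (D_succ _ j)]
  obtain ⟨Y, n, h4, h5, h6⟩ := key (H ⊔ D N.normalCore (j + 1)) (D N.normalCore j) (hfg _)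
    le_sup_right (by rwa [h3]) r
  refine ⟨Y, _, le_sup_left.trans h4, h5, ?_, ?_⟩ <;> rw [h6]
  · exact (Nat.one_lt_pow (Nat.succ_ne_zero n) hr'.one_lt).ne'
  · intro h
    have := (Nat.prime_dvd_prime_iff_eq hp.out hr').1 (hp.out.dvd_of_dvd_pow h)
    omega

end Pool.Agent.MP_6a4325_al.H54
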