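import Pool.Agent.MP_6a4325_al.H62.Base2

/-!
Row WFI: the property `W` passes from a subgroup of finite index to the group.
-/

set_option autoImplicit false

namespace Pool.Agent.MP_6a4325_al.H54

open Matrix Pool.Agent.MP_6a4325_al.H62

/-- right coset representatives -/
theorem exists_cosets {G : Type} [Group G] (N : Subgroup G) (hN : N.FiniteIndex) :
    ∃ (ι : Type) (_ : Fintype ι) (cls : G → ι) (r : ι → G) (hh : G → N),
      (∀ g, (hh g : G) * r (cls g) = g) ∧ (∀ j, cls (r j) = j) ∧ (∀ j, hh (r j) = 1) ∧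
      (∀ (h : N) (g : G), cls (h * g) = cls g) ∧ ∀ (h : N) (g : G), hh (h * g) = h * hh g := by
  classical
  have : Finite (G ⧸ N) := Subgroup.finite_quotient_of_finiteIndex
  have hm : ∀ g : G, g * (QuotientGroup.mk g⁻¹ : G ⧸ N).out ∈ N := fun g => by
    have h1 : (QuotientGroup.mk g⁻¹ : G ⧸ N) =
        QuotientGroup.mk (QuotientGroup.mk g⁻¹ : G ⧸ N).out := (Quotient.out_eq _).symm
    have h2 := QuotientGroup.eq.1 h1
    rwa [inv_inv] at h2
  have hc : ∀ (h : N) (g : G), (QuotientGroup.mk ((h : G) * g)⁻¹ : G ⧸ N) =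
      QuotientGroup.mk g⁻¹ := fun h g => by
    rw [_root_.mul_inv_rev]
    exact QuotientGroup.mk_mul_of_mem _ (N.inv_mem h.2)
  have hr : ∀ j : G ⧸ N, (QuotientGroup.mk (j.out⁻¹)⁻¹ : G ⧸ N) = j := fun j => by
    rw [inv_inv]; exact Quotient.out_eq j
  refine ⟨G ⧸ N, Fintype.ofFinite _, fun g => QuotientGroup.mk g⁻¹, fun j => j.out⁻¹,
    fun g => ⟨_, hm g⟩, fun g => ?_, hr, fun j => ?_, hc, fun h g => ?_⟩
  · simp
  · apply Subtype.ext
    show j.out⁻¹ * (QuotientGroup.mk (j.out⁻¹)⁻¹ : G ⧸ N).out = 1
    rw [hr]; simp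
  · apply Subtype.ext
    show (h : G) * g * (QuotientGroup.mk ((h : G) * g)⁻¹ : G ⧸ N).out =
      h * (g * (QuotientGroup.mk g⁻¹ : G ⧸ N).out)
    rw [hc, mul_assoc]

/-- the linear extension of a function on the group -/
noncomputable def lin {F G E : Type} [Field F] [AddCommGroup E] [Module F E] (φ : G → E) :
    MonoidAlgebra F G →+ E :=
  (Finsupp.linearCombination F φ).toAddMonoidHom.comp
    (MonoidAlgebra.coeffAddEquiv (R := F) (M := G)).toAddMonoidHom

theorem lin_single {F G E : Type} [Field F] [AddCommGroup E] [Module F E] (φ : G → E) (g : G)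
    (c : F) : lin φ (MonoidAlgebra.single g c) = c • φ g := by
  show (MonoidAlgebra.single g c).coeff.sum (fun a c => c • φ a) = _
  rw [MonoidAlgebra.coeff_single]
  exact Finsupp.sum_single_index (zero_smul F (φ g))

/-- coinduction of a solution -/
theorem coind {F G K ι : Type} [Field F] [Group G] [Field K] [Algebra F K] [Fintype ι]
    (N : Subgroup G) (cls : G → ι) (r : ι → G) (hh : G → N)
    (h1 : ∀ g, (hh g : G) * r (cls g) = g) {n m : ℕ} (ρ : N →* Matrix (Fin n) (Fin n) K)
    (φ : Fin m → G → Fin n → K) (hφ : ∀ i (h : N) (g : G), φ i (h * g) = ρ h *ᵥ φ i g) :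
    ∃ (d : ℕ) (ρ' : G →* Matrix (Fin d) (Fin d) K) (v : Fin m → Fin d → K),
      (v = 0 → φ = 0) ∧ ∀ x : Fin m → MonoidAlgebra F G,
        (∀ g : G, ∑ i, lin (φ i) (MonoidAlgebra.single g 1 * x i) = 0) →
          ∑ i, act F ρ' (x i) *ᵥ v i = 0 := by
  let U : Submodule K (G → Fin n → K) :=
    { carrier := {ψ | ∀ (h : N) (g : G), ψ (h * g) = ρ h *ᵥ ψ g}
      add_mem' := fun {a b} ha hb h g => by
        rw [Pi.add_apply, Pi.add_apply, mulVec_add, ha, hb]
      zero_mem' := fun h g => by simp
      smul_mem' := fun c a ha h g => by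
        rw [Pi.smul_apply, Pi.smul_apply, mulVec_smul, ha] }
  let res : U →ₗ[K] (ι → Fin n → K) := (LinearMap.funLeft K (Fin n → K) r).comp U.subtype
  have hres : Function.Injective res := by
    rw [injective_iff_map_eq_zero]
    intro a ha
    apply Subtype.ext
    funext g
    have e : a.1 (r (cls g)) = 0 := congrFun ha (cls g)
    have e2 := a.2 (hh g) (r (cls g))
    rw [h1, e, mulVec_zero] at e2
    exact e2
  have : Module.Finite K U := Module.Finite.of_injective res hres
  have hinv : ∀ g : G, ∀ u ∈ U, LinearMap.funLeft K (Fin n → K) (fun x => x * g) u ∈ U := by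
    intro g u hu h x
    show u (h * x * g) = ρ h *ᵥ u (x * g)
    rw [mul_assoc]; exact hu h _
  let τ : G →* Module.End K U :=
    { toFun := fun g => (LinearMap.funLeft K (Fin n → K) (fun x => x * g)).restrict (hinv g)
      map_one' := by
        ext u x i
        show u.1 (x * 1) i = u.1 x i
        rw [mul_one]
      map_mul' := by
        intro g h
        ext u x i
        show u.1 (x * (g * h)) i = u.1 (x * g * h) i
        rw [mul_assoc] }
  let b := Module.finBasis K U
  let ρ' : G →* Matrix _ _ K := (LinearMap.toMatrixAlgEquiv b).toMonoidHom.comp τ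
  have hρ' : ∀ g u, ρ' g *ᵥ b.equivFun u = b.equivFun (τ g u) := fun g u =>
    LinearMap.toMatrix_mulVec_repr b b (τ g) u
  let w : Fin m → U := fun i => ⟨φ i, hφ i⟩
  have key : ∀ i (y : MonoidAlgebra F G) (g : G),
      (b.equivFun.symm (act F ρ' y *ᵥ b.equivFun (w i))).1 g =
        lin (φ i) (MonoidAlgebra.single g 1 * y) := by
    intro i y g
    induction y using MonoidAlgebra.induction_linear with
    | zero => simp
    | add x y hx hy =>
      rw [map_add, add_mulVec, map_add, mul_add, map_add, ← hx, ← hy]; rfl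
    | single a c =>
      rw [act_single, smul_mulVec, hρ', MonoidAlgebra.single_mul_single, lin_single, one_mul,
        ← algebraMap_smul K c, map_smul, LinearEquiv.symm_apply_apply, ← algebraMap_smul K c]
      rfl
  refine ⟨_, ρ', fun i => b.equivFun (w i), fun h0 => ?_, fun x hx => ?_⟩
  · funext i
    have e : b.equivFun (w i) = 0 := congrFun h0 i
    have e2 : w i = 0 := b.equivFun.injective (e.trans (map_zero _).symm)
    exact congrArg Subtype.val e2
  · apply b.equivFun.symm.injective
    rw [map_zero, map_sum]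
    apply Subtype.ext
    funext g
    rw [Submodule.coe_sum, Finset.sum_apply]
    simp only [key]
    exact hx g

theorem wfi : SWfi := by
  intro F G _ _ N hN hW m L hL
  classical
  obtain ⟨ι, _, cls, r, hh, h1, h2, h3, h4, h5⟩ := exists_cosets N hN
  let e : Fin m × ι ≃ Fin (Fintype.card (Fin m × ι)) := Fintype.equivFin _
  let up : MonoidAlgebra F N →+* MonoidAlgebra F G := MonoidAlgebra.mapDomainRingHom F N.subtype
  let Θ : (Fin (Fintype.card (Fin m × ι)) → MonoidAlgebra F N) → Fin m → MonoidAlgebra F G :=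
    fun y i => ∑ j, up (y (e (i, j))) * MonoidAlgebra.single (r j) 1
  let θ : ι → MonoidAlgebra F G →+ MonoidAlgebra F N := fun j =>
    lin fun g => if cls g = j then MonoidAlgebra.single (hh g) (1 : F) else 0
  have hθ : ∀ j g c, θ j (MonoidAlgebra.single g c) =
      if cls g = j then MonoidAlgebra.single (hh g) c else 0 := by
    intro j g c
    show lin _ _ = _
    rw [lin_single]
    split_ifs
    · simp
    · simp
  have hdec : ∀ y : MonoidAlgebra F G, ∑ j, up (θ j y) * MonoidAlgebra.single (r j) 1 = y := by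
    intro y
    induction y using MonoidAlgebra.induction_linear with
    | zero => simp
    | add x y hx hy => simp only [map_add, add_mul, Finset.sum_add_distrib, hx, hy]
    | single g c =>
      rw [Finset.sum_eq_single (cls g)]
      · rw [hθ, if_pos rfl]
        show MonoidAlgebra.mapDomain N.subtype _ * _ = _
        rw [MonoidAlgebra.mapDomain_single, MonoidAlgebra.single_mul_single, mul_one]
        exact congrArg (fun a => MonoidAlgebra.single a c) (h1 g)
      · intro j _ hj
        rw [hθ, if_neg (Ne.symm hj), map_zero, zero_mul]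
      · intro h; exact absurd (Finset.mem_univ _) h
  let θ' : (Fin m → MonoidAlgebra F G) → Fin (Fintype.card (Fin m × ι)) → MonoidAlgebra F N :=
    fun x k => θ (e.symm k).2 (x (e.symm k).1)
  have hΘ : ∀ x, Θ (θ' x) = x := fun x => funext fun i => by
    simp only [Θ, θ', Equiv.symm_apply_apply]
    exact hdec _
  let L' : Submodule (MonoidAlgebra F N) (Fin (Fintype.card (Fin m × ι)) → MonoidAlgebra F N) :=
    { carrier := {y | Θ y ∈ L}
      add_mem' := fun {a b} ha hb => by
        have e1 : Θ (a + b) = Θ a + Θ b := funext fun i => by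
          simp only [Θ, Pi.add_apply, map_add, add_mul, Finset.sum_add_distrib]
        show Θ (a + b) ∈ L
        rw [e1]; exact L.add_mem ha hb
      zero_mem' := by
        have e1 : Θ 0 = 0 := funext fun i => by simp [Θ]
        show Θ 0 ∈ L
        rw [e1]; exact L.zero_mem
      smul_mem' := fun s a ha => by
        have e1 : Θ (s • a) = up s • Θ a := funext fun i => by
          simp only [Θ, Pi.smul_apply, smul_eq_mul, map_mul, Finset.mul_sum, mul_assoc]
        show Θ (s • a) ∈ L
        rw [e1]; exact L.smul_mem _ ha }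
  have hL' : L' ≠ ⊤ := fun h => hL (by
    rw [eq_top_iff]
    intro x _
    have h6 : θ' x ∈ L' := h ▸ Submodule.mem_top
    rw [← hΘ x]; exact h6)
  obtain ⟨K, i1, i2, i3, n, ρ, v, hv, hs⟩ := hW _ L' hL'
  let φ : Fin m → G → Fin n → K := fun i g => ρ (hh g) *ᵥ v (e (i, cls g))
  have hφ : ∀ i (h : N) (g : G), φ i (h * g) = ρ h *ᵥ φ i g := fun i h g => by
    simp only [φ, h4, h5, map_mul, mulVec_mulVec]
  have hlin : ∀ i (y : MonoidAlgebra F G),
      lin (φ i) y = ∑ j, act F ρ (θ j y) *ᵥ v (e (i, j)) := by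
    intro i y
    induction y using MonoidAlgebra.induction_linear with
    | zero => simp
    | add x y hx hy => simp only [map_add, add_mulVec, Finset.sum_add_distrib, hx, hy]
    | single g c =>
      rw [lin_single, Finset.sum_eq_single (cls g)]
      · rw [hθ, if_pos rfl, act_single, smul_mulVec]
      · intro j _ hj
        rw [hθ, if_neg (Ne.symm hj), map_zero, zero_mulVec]
      · intro h; exact absurd (Finset.mem_univ _) h
  obtain ⟨d, ρ', v', hv', hs'⟩ := coind (F := F) N cls r hh h1 ρ φ hφ
  refine ⟨K, i1, i2, i3, d, ρ', v', fun h0 => hv ?_, fun x hx => hs' x fun g => ?_⟩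
  · funext k
    obtain ⟨⟨i, j⟩, rfl⟩ := e.surjective k
    have h6 : φ i (r j) = 0 := congrFun (congrFun (hv' h0) i) (r j)
    simp only [φ, h2, h3, map_one, one_mulVec] at h6
    exact h6
  · have h6 : θ' ((MonoidAlgebra.single g 1 : MonoidAlgebra F G) • x) ∈ L' := by
      show Θ _ ∈ L
      rw [hΘ]; exact L.smul_mem _ hx
    have h7 := hs _ h6
    rw [← e.sum_comp, Fintype.sum_prod_type] at h7
    simp only [θ', Equiv.symm_apply_apply, Pi.smul_apply, smul_eq_mul] at h7
    simp only [hlin]
    exact h7

end Pool.Agent.MP_6a4325_al.H54
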